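import Pool.Agent.Helper50.CSB.Q0
import Pool.Agent.Helper10.CSB.Q3

/-!
# Two rows (piece C3)
-/

namespace H50R

open H45C Equiv MvPolynomial

variable {m : ℕ}

/-! ## the code of a product of rows -/

theorem c3_code_one (x : Fin (m + 1)) : code (1 : WG m) x = 0 := by
  unfold code
  rw [Finset.card_eq_zero, Finset.filter_eq_empty_iff]
  rintro k _ ⟨h1, h2⟩
  simp only [Perm.coe_one, id_eq] at h2
  exact absurd h1 (not_lt.2 h2.le)

/-- the code after an ascent is exchanged -/
theorem c3_code_asc (w : WG m) (k : Fin m) (h : code w k.castSucc ≤ code w k.succ) :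
    code (w * sg k) k.castSucc = code w k.succ + 1 ∧
      code (w * sg k) k.succ = code w k.castSucc ∧
      ∀ x, x ≠ k.castSucc → x ≠ k.succ → code (w * sg k) x = code w x := by
  have h1 : w k.castSucc < w k.succ := by
    rcases lt_or_gt_of_ne (fun h => castSucc_ne_succ k (w.injective h)) with h1 | h1
    · exact h1
    · exact absurd ((desc_iff_code w k).1 h1) (not_lt.2 h)
  have h2 : (w * sg k) k.succ < (w * sg k) k.castSucc := by
    have e1 : sg k k.castSucc = k.succ := swap_apply_left _ _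
    have e2 : sg k k.succ = k.castSucc := swap_apply_right _ _
    rw [Perm.mul_apply, Perm.mul_apply, e1, e2]
    exact h1
  have h3 : w * sg k * sg k = w := by rw [mul_assoc, sg_mul_self, mul_one]
  have h4 := code_mul_sg_left (w * sg k) k h2
  have h5 := code_mul_sg_right (w * sg k) k h2
  rw [h3] at h4 h5
  exact ⟨h5.symm, h4.symm, fun x hx1 hx2 => code_mul_sg_of_ne w k x hx1 hx2⟩

theorem c3_code_mul_row (b : ℕ) : ∀ (w : WG m) (j : ℕ), j + b ≤ m →
    (∀ x : Fin (m + 1), j ≤ (x : ℕ) → code w x = 0) →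
    ∀ x : Fin (m + 1), code (w * row m j b) x = if (x : ℕ) = j then b else code w x := by
  induction b with
  | zero =>
    intro w j _ h0 x
    rw [row, mul_one]
    split_ifs with hx
    · exact h0 x (by omega)
    · rfl
  | succ b ih =>
    intro w j hj h0 x
    have h1 := ih w (j + 1) (by omega) (fun x hx => h0 x (by omega))
    have hjm : j < m := by omega
    have e1 : w * row m j (b + 1) = w * row m (j + 1) b * sg ⟨j, hjm⟩ := by
      rw [row, ← mul_assoc, sn, dif_pos hjm]
    have c1 : code (w * row m (j + 1) b) (⟨j, hjm⟩ : Fin m).castSucc = 0 := by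
      rw [h1, if_neg (by simp)]
      exact h0 _ (by simp)
    have c2 : code (w * row m (j + 1) b) (⟨j, hjm⟩ : Fin m).succ = b := by
      rw [h1, if_pos (by simp)]
    obtain ⟨d1, d2, d3⟩ := c3_code_asc (w * row m (j + 1) b) ⟨j, hjm⟩ (by omega)
    rw [e1]
    by_cases hx1 : x = (⟨j, hjm⟩ : Fin m).castSucc
    · rw [hx1, d1, c2, if_pos (by simp)]
    · have hx1' : (x : ℕ) ≠ j := fun h => hx1 (Fin.ext (by simpa using h))
      rw [if_neg hx1']
      by_cases hx2 : x = (⟨j, hjm⟩ : Fin m).succ
      · rw [hx2, d2, c1]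
        exact (h0 _ (by simp)).symm
      · have hx2' : (x : ℕ) ≠ j + 1 := fun h => hx2 (Fin.ext (by simpa using h))
        rw [d3 x hx1 hx2, h1, if_neg hx2']

/-- the Lehmer code of a product of two rows -/
theorem c3_code_vb_two (i a j b : ℕ) (hij : i < j) (h1 : i + a ≤ m) (h2 : j + b ≤ m)
    (x : Fin (m + 1)) : code (vb m [(i, a), (j, b)]) x =
      if (x : ℕ) = j then b else if (x : ℕ) = i then a else 0 := by
  have e1 : ∀ x : Fin (m + 1), code (row m i a) x = if (x : ℕ) = i then a else 0 := by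
    intro x
    have h := c3_code_mul_row a (1 : WG m) i h1 (fun x _ => c3_code_one x) x
    rw [one_mul] at h
    rw [h, c3_code_one]
  have e2 : vb m [(i, a), (j, b)] = row m i a * row m j b := by
    rw [vb, vb, vb, mul_one]
  rw [e2, c3_code_mul_row b (row m i a) j h2 (fun x hx => by rw [e1, if_neg (by omega)]) x, e1]

/-! ## positivity of the two-row polynomials -/

theorem c3_PP_hz (j : ℕ) (k : ℤ) : PP (hz m j k) := by
  intro x
  apply NN_of_Om
  rw [Om_act_hz, Om_bas, Hop_wd]
  exact WN_hop _ _ _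

theorem PP_p2_gap (I J a b : ℕ) (hIJ : I < J) (h : a ≤ J - I + 1 ∨ b ≤ 2) :
    PP (p2 m I J a b) := by
  rcases Nat.eq_zero_or_pos a with ha | ha
  · rw [ha, p2_a_zero I J b hIJ]
    exact c3_PP_hz J b
  rcases Nat.eq_zero_or_pos b with hb | hb
  · rw [hb, p2_b_zero]
    exact c3_PP_hz I a
  have hg : (((Sj m J \ Sj m I) ∩ Finset.univ).card : ℤ) ≤ J - I := by
    have := card_Sj_sdiff I J (Finset.univ : Finset (Fin (m + 1)))
    omega
  by_cases h1 : a + I < J
  · have e : hz m J (a + b - max ((a : ℤ) + 1) (b + (J - I))) = 0 := by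
      apply hz_neg
      have := le_max_right ((a : ℤ) + 1) (b + (J - I))
      omega
    unfold p2
    rw [e, mul_zero, sub_zero]
    exact (c3_PP_hz _ _).mul (c3_PP_hz _ _)
  by_cases h2 : a + I = J ∨ b = 1
  · have e : max ((a : ℤ) + 1) (b + (J - I)) = a + b := by
      rcases le_total ((a : ℤ) + 1) (b + (J - I)) with h3 | h3
      · rw [max_eq_right h3]
        omega
      · rw [max_eq_left h3]
        omega
    unfold p2
    rw [e, sub_self, hz_zero_right, mul_one]
    intro x
    apply NN_of_Om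
    rw [map_sub, LinearMap.sub_apply, map_sub, act_mul_apply, Om_act_hz, Om_act_hz, Om_act_hz,
      Om_bas]
    exact two_pos (X := Finset.univ) (Sj_mono hIJ.le) (by omega) (by omega) (by omega)
      (wd_mem _ (om_nodup x) (om_toFinset x)) (WN.wd _)
  · have e : max ((a : ℤ) + 1) (b + (J - I)) = a + b - 1 := by
      rcases le_total ((a : ℤ) + 1) (b + (J - I)) with h3 | h3
      · rw [max_eq_right h3]
        omega
      · rw [max_eq_left h3]
        omega
    unfold p2
    rw [e, show (a : ℤ) + b - (a + b - 1) = 1 by ring]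
    intro x
    apply NN_of_Om
    rw [map_sub, LinearMap.sub_apply, map_sub, act_mul_apply, act_mul_apply, Om_act_hz,
      Om_act_hz, Om_act_hz, Om_act_hz, Om_bas]
    exact Dd_pos (X := Finset.univ) (a := a) (b := b) (Sj_mono hIJ.le) (by omega) (by omega)
      (wd_mem _ (om_nodup x) (om_toFinset x)) (WN.wd _)

/-- C3': two nonzero entries of the Lehmer code -/
theorem EE_code (v : WG m) (i j : Fin (m + 1)) (hij : i < j)
    (hv : ∀ k, k ≠ i → k ≠ j → code v k = 0)
    (h : code v i ≤ (j : ℕ) - i + 1 ∨ code v j ≤ 2) : EE v := by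
  have hij' : (i : ℕ) < j := hij
  refine ⟨_, isSchub_p2 v i j hij hv, PP_p2_gap _ _ _ _ (by omega) ?_⟩
  omega

/-- C3: two rows -/
theorem EE_two (i a j b : ℕ) (hij : i < j) (ha : 1 ≤ a) (hb : 1 ≤ b) (h1 : i + a ≤ m)
    (h2 : j + b ≤ m) (h : a ≤ j - i + 1 ∨ b ≤ 2) : EE (vb m [(i, a), (j, b)]) := by
  have hc := c3_code_vb_two i a j b hij h1 h2
  refine EE_code _ ⟨i, by omega⟩ ⟨j, by omega⟩ hij ?_ ?_
  · intro k hk1 hk2
    rw [hc, if_neg (fun h => hk2 (Fin.ext h)), if_neg (fun h => hk1 (Fin.ext h))]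
  · rw [hc, hc, if_pos rfl, if_neg (fun h => by simp only at h; omega), if_pos rfl]
    exact h

end H50R
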